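import Pool.Agent.H933.LL.Stm9

/-! Project LL (helper933): P_box5 (helper903). -/

set_option autoImplicit false

open MeasureTheory Metric Filter Topology
open scoped Real ENNReal

namespace Pool.Agent.H903.LL

open Pool.Agent.H933.LL

theorem summable_aux (s ε C : ℝ) (hs : s < ε) :
    Summable (fun k : ℕ => Real.exp (s * ((k : ℝ) + 1)) * (|C| * Real.exp (-(k : ℝ)) ^ ε)) := by
  set ρ : ℝ := Real.exp (s - ε) with hρ
  have hρ1 : ρ < 1 := by
    rw [hρ, Real.exp_lt_one_iff]
    linarith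
  have h1 : Summable (fun n : ℕ => ρ ^ n) :=
    summable_geometric_of_lt_one (Real.exp_pos _).le hρ1
  refine (h1.mul_left (|C| * Real.exp s)).congr fun k => ?_
  have e1 : Real.exp (-(k : ℝ)) ^ ε = Real.exp (-(k : ℝ) * ε) := by
    rw [← Real.exp_mul]
  have e2 : ρ ^ k = Real.exp (k * (s - ε)) := by
    rw [hρ, Real.exp_nat_mul]
  rw [e1, e2]
  have e3 : Real.exp (s * ((k : ℝ) + 1)) * Real.exp (-(k : ℝ) * ε) =
      Real.exp s * Real.exp (k * (s - ε)) := by
    rw [← Real.exp_add, ← Real.exp_add]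
    congr 1
    ring
  linear_combination (-|C|) * e3

/-- the pointwise bound -/
theorem pointwise (s d : ℝ) (hs : 0 < s) (hd : 0 ≤ d) :
    ENNReal.ofReal (d ^ (-s)) ≤ 1 +
      ∑' k : ℕ, if d ≤ Real.exp (-(k : ℝ)) then ENNReal.ofReal (Real.exp (s * ((k : ℝ) + 1)))
        else 0 := by
  rcases hd.eq_or_lt with h0 | h0
  · rw [← h0, Real.zero_rpow (by linarith), ENNReal.ofReal_zero]
    exact bot_le
  rcases le_total 1 d with h1 | h1
  · refine le_trans ?_ le_self_add
    rw [← ENNReal.ofReal_one]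
    exact ENNReal.ofReal_le_ofReal (Real.rpow_le_one_of_one_le_of_nonpos h1 (by linarith))
  have hlog : 0 ≤ -Real.log d := by
    have := Real.log_nonpos hd h1
    linarith
  set k : ℕ := ⌊-Real.log d⌋₊ with hk
  have hk1 : (k : ℝ) ≤ -Real.log d := Nat.floor_le hlog
  have hk2 : -Real.log d < (k : ℝ) + 1 := Nat.lt_floor_add_one _
  have hdk : d ≤ Real.exp (-(k : ℝ)) := by
    rw [← Real.log_le_iff_le_exp h0]
    linarith
  refine le_trans ?_ le_add_self
  refine le_trans ?_ (ENNReal.le_tsum k)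
  rw [if_pos hdk, Real.rpow_def_of_pos h0]
  refine ENNReal.ofReal_le_ofReal (Real.exp_le_exp.2 ?_)
  have := mul_le_mul_of_nonneg_left hk2.le hs.le
  linarith

theorem p_box5 : P_box5 := by
  intro E C ε s r hs hsε hC
  have hmeas : Measurable (fun z : ℂ => (infDist z E) ^ (-s)) :=
    (continuous_infDist_pt E).measurable.pow_const (-s)
  refine ⟨hmeas.aestronglyMeasurable, ?_⟩
  rw [hasFiniteIntegral_iff_ofReal (Eventually.of_forall fun z =>
    Real.rpow_nonneg infDist_nonneg _)]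
  have hm : ∀ k : ℕ, MeasurableSet {z : ℂ | infDist z E ≤ Real.exp (-(k : ℝ))} := fun k =>
    measurableSet_le (continuous_infDist_pt E).measurable measurable_const
  calc ∫⁻ z in ball (0 : ℂ) r, ENNReal.ofReal ((infDist z E) ^ (-s))
      ≤ ∫⁻ z in ball (0 : ℂ) r, (1 + ∑' k : ℕ,
          {z : ℂ | infDist z E ≤ Real.exp (-(k : ℝ))}.indicator
          (fun _ => ENNReal.ofReal (Real.exp (s * ((k : ℝ) + 1)))) z) := by
        refine lintegral_mono fun z => ?_
        exact (pointwise s (infDist z E) hs infDist_nonneg).trans (le_of_eq rfl)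
    _ = (∫⁻ _ in ball (0 : ℂ) r, (1 : ℝ≥0∞)) + ∫⁻ z in ball (0 : ℂ) r, ∑' k : ℕ,
          {z : ℂ | infDist z E ≤ Real.exp (-(k : ℝ))}.indicator
          (fun _ => ENNReal.ofReal (Real.exp (s * ((k : ℝ) + 1)))) z :=
        lintegral_add_left measurable_const _
    _ ≤ (∫⁻ _ in ball (0 : ℂ) r, (1 : ℝ≥0∞)) + ∫⁻ z, ∑' k : ℕ,
          {z : ℂ | infDist z E ≤ Real.exp (-(k : ℝ))}.indicator
          (fun _ => ENNReal.ofReal (Real.exp (s * ((k : ℝ) + 1)))) z :=
        add_le_add_right (setLIntegral_le_lintegral _ _) _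
    _ = (∫⁻ _ in ball (0 : ℂ) r, (1 : ℝ≥0∞)) + ∑' k : ℕ, ∫⁻ z,
          {z : ℂ | infDist z E ≤ Real.exp (-(k : ℝ))}.indicator
          (fun _ => ENNReal.ofReal (Real.exp (s * ((k : ℝ) + 1)))) z := by
        congr 1
        refine lintegral_tsum fun k => ?_
        exact (measurable_const.indicator (hm k)).aemeasurable
    _ = (∫⁻ _ in ball (0 : ℂ) r, (1 : ℝ≥0∞)) + ∑' k : ℕ,
          ENNReal.ofReal (Real.exp (s * ((k : ℝ) + 1))) *
          volume {z : ℂ | infDist z E ≤ Real.exp (-(k : ℝ))} := by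
        congr 1
        refine tsum_congr fun k => ?_
        rw [lintegral_indicator_const (hm k)]
    _ ≤ (∫⁻ _ in ball (0 : ℂ) r, (1 : ℝ≥0∞)) + ∑' k : ℕ,
          ENNReal.ofReal (Real.exp (s * ((k : ℝ) + 1)) * (|C| * Real.exp (-(k : ℝ)) ^ ε)) := by
        refine add_le_add_right (ENNReal.tsum_le_tsum fun k => ?_) _
        rw [ENNReal.ofReal_mul (Real.exp_pos _).le]
        refine mul_le_mul_right ?_ _
        refine (hC _ (Real.exp_pos _) (by
          rw [Real.exp_le_one_iff]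
          have : (0 : ℝ) ≤ k := Nat.cast_nonneg k
          linarith)).trans ?_
        exact ENNReal.ofReal_le_ofReal (mul_le_mul_of_nonneg_right (le_abs_self C) (by positivity))
    _ < ∞ := by
        refine ENNReal.add_lt_top.2 ⟨?_, (summable_aux s ε C hsε).tsum_ofReal_lt_top⟩
        rw [setLIntegral_one]
        exact measure_ball_lt_top

end Pool.Agent.H903.LL
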